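import Pool.Agent.W46.HM.Stm

/-! HM-LOC: conditional change of scale. -/

set_option autoImplicit false

open Finset
open scoped Classical

namespace Pool.Agent.W215.HM

open Pool.Agent.W904.AK Pool.Agent.W46.HD Pool.Agent.W46.HM

theorem LOC (h1 : S_LOC1) : S_LOC := by
  intro d b G C hC hO n Ω _ A D hF p hp lev B hB hsep
  have e0 := chain hp (QQ D lev) (fun z => z.1)
  have e1 := chain hp (QQ D lev) (fun z => (z.2, cell A D z.2 z.1))
  have e2 := chain hp (QQ D lev) (fun z => z.2)
  have e3 := chain hp (QQ D lev) (fun z => (z.1, z.2))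
  have key : ∀ x, p x * H (cd p (QQ D lev) (QQ D lev x)) (fun z => z.1) ≤
      b * (p x * H (cd p (QQ D lev) (QQ D lev x)) (fun z => (z.2, cell A D z.2 z.1)) -
        p x * H (cd p (QQ D lev) (QQ D lev x)) (fun z => z.2)) +
      G * (p x * Real.log ((2 : ℝ) ^ lev x.1 x.2) -
        (p x * H (cd p (QQ D lev) (QQ D lev x)) (fun z => (z.1, z.2)) -
        p x * H (cd p (QQ D lev) (QQ D lev x)) (fun z => z.1))) + C * (1 + B) * p x := by
    intro x
    by_cases hx : p x = 0
    · simp [hx]
    · have hP : 0 < im p (QQ D lev) (QQ D lev x) := im_pos hp (QQ D lev) hx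
      have hlaw : IsLaw (cd p (QQ D lev) (QQ D lev x)) := cd_law hp (QQ D lev) hP.ne'
      have hcd : ∀ z, cd p (QQ D lev) (QQ D lev x) z ≠ 0 → QQ D lev z = QQ D lev x := by
        intro z hz
        by_contra hne
        exact hz (if_neg hne)
      have hq1 : ∀ z, cd p (QQ D lev) (QQ D lev x) z ≠ 0 →
          (z.2 : ℕ) / 2 ^ (lev x.1 x.2) = (x.2 : ℕ) / 2 ^ (lev x.1 x.2) ∧
          col n D (lev x.1 x.2) z.1 = col n D (lev x.1 x.2) x.1 := by
        intro z hz
        have h := hcd z hz
        unfold QQ lb at h
        simp only [Prod.mk.injEq] at h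
        obtain ⟨⟨h2, h3⟩, h4⟩ := h
        rw [h2] at h3 h4
        exact ⟨h3, h4⟩
      have hq2 : ∀ (ω : Ω) (y : Fin n),
          ∑ z, cd p (QQ D lev) (QQ D lev x) (ω, z) * max 0 (psi (2 ^ (lev x.1 x.2)) z y) ≤
            B * ∑ z, cd p (QQ D lev) (QQ D lev x) (ω, z) := by
        intro ω y
        by_cases hex : ∃ s, cd p (QQ D lev) (QQ D lev x) (ω, s) ≠ 0
        · obtain ⟨s, hs⟩ := hex
          have h := hcd _ hs
          have hlevs : lev ω s = lev x.1 x.2 := by
            unfold QQ lb at h
            simp only [Prod.mk.injEq] at h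
            exact h.1.1
          have hlbs : lb (lev ω) s = lb (lev x.1) x.2 := by
            unfold QQ at h
            simp only [Prod.mk.injEq] at h
            exact h.1
          have hcols : col n D (lev x.1 x.2) ω = col n D (lev x.1 x.2) x.1 := (hq1 _ hs).2
          have hval : ∀ z, cd p (QQ D lev) (QQ D lev x) (ω, z) =
              (if lb (lev ω) z = lb (lev ω) s then p (ω, z) else 0) /
                im p (QQ D lev) (QQ D lev x) := by
            intro z
            have hiff : QQ D lev (ω, z) = QQ D lev x ↔ lb (lev ω) z = lb (lev ω) s := by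
              constructor
              · intro h5
                unfold QQ at h5
                simp only [Prod.mk.injEq] at h5
                rw [hlbs]
                exact h5.1
              · intro h5
                have h6 : lev ω z = lev x.1 x.2 := by
                  have : (lb (lev ω) z).1 = (lb (lev ω) s).1 := by rw [h5]
                  exact this.trans hlevs
                unfold QQ
                simp only [Prod.mk.injEq]
                exact ⟨h5.trans hlbs, by rw [h6]; exact hcols⟩
            unfold cd
            by_cases h5 : QQ D lev (ω, z) = QQ D lev x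
            · rw [if_pos h5, if_pos (hiff.mp h5)]
            · rw [if_neg h5, if_neg (fun h6 => h5 (hiff.mpr h6)), zero_div]
          have h7 := hsep ω s y
          rw [hlevs] at h7
          have e4 : ∑ z, cd p (QQ D lev) (QQ D lev x) (ω, z) *
              max 0 (psi (2 ^ (lev x.1 x.2)) z y) =
              (∑ z, (if lb (lev ω) z = lb (lev ω) s then
                p (ω, z) * max 0 (psi (2 ^ (lev x.1 x.2)) z y) else 0)) /
                im p (QQ D lev) (QQ D lev x) := by
            rw [Finset.sum_div]
            refine Finset.sum_congr rfl fun z _ => ?_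
            rw [hval z]
            split_ifs
            · ring
            · simp
          have e5 : ∑ z, cd p (QQ D lev) (QQ D lev x) (ω, z) =
              (∑ z, (if lb (lev ω) z = lb (lev ω) s then p (ω, z) else 0)) /
                im p (QQ D lev) (QQ D lev x) := by
            rw [Finset.sum_div]
            exact Finset.sum_congr rfl fun z _ => hval z
          rw [e4, e5, ← mul_div_assoc]
          exact div_le_div_of_nonneg_right h7 hP.le
        · push Not at hex
          simp [hex]
      have h2 := h1 d b G C hC hO n Ω A D hF (lev x.1 x.2) ((x.2 : ℕ) / 2 ^ (lev x.1 x.2))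
        (col n D (lev x.1 x.2) x.1) (cd p (QQ D lev) (QQ D lev x)) hlaw B hB hq1 hq2
      have h3 := mul_le_mul_of_nonneg_left h2 (hp.nonneg x)
      have e6 : H (cd p (QQ D lev) (QQ D lev x)) (fun z => (z.1, z.2)) =
          H (cd p (QQ D lev) (QQ D lev x)) id := rfl
      have e7 : H (cd p (QQ D lev) (QQ D lev x)) (fun z => z.1) =
          H (cd p (QQ D lev) (QQ D lev x)) Prod.fst := rfl
      have e8 : H (cd p (QQ D lev) (QQ D lev x)) (fun z => z.2) =
          H (cd p (QQ D lev) (QQ D lev x)) Prod.snd := rfl
      rw [e6, e7, e8]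
      refine h3.trans (le_of_eq ?_)
      ring
  have hsum := Finset.sum_le_sum fun x (_ : x ∈ (Finset.univ : Finset (Ω × Fin n))) => key x
  rw [Finset.sum_add_distrib, Finset.sum_add_distrib, ← Finset.mul_sum, ← Finset.mul_sum,
    ← Finset.mul_sum, Finset.sum_sub_distrib,
    Finset.sum_sub_distrib, Finset.sum_sub_distrib, hp.total, ← e0, ← e1, ← e2,
    ← e3, mul_one] at hsum
  refine hsum.trans (le_of_eq ?_)
  ring

end Pool.Agent.W215.HM
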